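import Pool.Agent.Helper52.GPM.S

/-!
# Gilbert-Pollak, chapter MSTF: removal of a passive vertex
-/

namespace Pool.Agent.Helper83.GPM

open Relation Classical Pool.Agent.Helper18.GP Pool.Agent.Helper52.GPM

theorem mod_stDrop (hP : stPocket) : stDrop := by
  intro N V A F d hd hFA v hv hvA h3
  have hcard : (V.erase v).card = V.card - 1 := Finset.card_erase_of_mem hv
  have hne : (V.erase v).Nonempty := by
    rw [← Finset.card_pos]; omega
  obtain ⟨z, hz, hzmin⟩ := Finset.exists_min_image (V.erase v) (fun y => cyc v y) hne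
  obtain ⟨x, hx, hxmax⟩ := Finset.exists_max_image (V.erase v) (fun y => cyc v y) hne
  have hzV := Finset.mem_of_mem_erase hz
  have hxV := Finset.mem_of_mem_erase hx
  have hzv := Finset.ne_of_mem_erase hz
  have hxv := Finset.ne_of_mem_erase hx
  have hzx : z ≠ x := by
    intro h
    subst h
    have h1 : (V.erase v).card ≤ 1 := by
      rw [Finset.card_le_one]
      intro p hp q hq
      have a1 := hzmin p hp
      have a2 := hxmax p hp
      have a3 := hzmin q hq
      have a4 := hxmax q hq
      exact cyc_inj (a := v) (by omega)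
    omega
  have hArc : Arc V z x = V.erase v := by
    ext y
    rw [mem_Arc, Finset.mem_erase]
    have hzx' : cyc v z ≤ cyc v x := hzmin x hx
    have e1 : cyc z x = cyc v x - cyc v z := cyc_change_le hzx'
    constructor
    · rintro ⟨hy, hle⟩
      refine ⟨?_, hy⟩
      rintro rfl
      have e2 : cyc z y = N - cyc y z := cyc_back hzv
      have := cyc_lt y x
      have := cyc_lt y z
      omega
    · rintro ⟨hyv, hy⟩
      refine ⟨hy, ?_⟩
      have hy' : y ∈ V.erase v := Finset.mem_erase.2 ⟨hyv, hy⟩
      have a1 : cyc v z ≤ cyc v y := hzmin y hy'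
      have a2 : cyc v y ≤ cyc v x := hxmax y hy'
      have e2 : cyc z y = cyc v y - cyc v z := cyc_change_le a1
      omega
  have hA : A ⊆ Arc V z x := by
    rw [hArc]
    intro y hy
    refine Finset.mem_erase.2 ⟨?_, hFA.AV hy⟩
    rintro rfl
    exact hvA hy
  have := hP N V A F d hd hFA z hzV x hxV hzx hA
  rw [hArc] at this
  exact this

end Pool.Agent.Helper83.GPM
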