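import Pool.Agent.Helper52.GPM.S

/-!
# Gilbert-Pollak, chapter MSTF: a connection uses a pair at most once
-/

namespace Pool.Agent.Helper83.GPM

open Relation Classical Pool.Agent.Helper18.GP Pool.Agent.Helper52.GPM

theorem mod_xUse : xUse := by
  intro N F m a b x y h
  induction h with
  | rel x y h =>
    rcases h with h | h
    · by_cases he : (x, y) = (a, b)
      · rw [Prod.mk.injEq] at he
        obtain ⟨h1, h2⟩ := he
        subst h1; subst h2
        exact Or.inr (Or.inl ⟨EqvGen.refl _, EqvGen.refl _⟩)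
      · left
        exact EqvGen.rel _ _ (Or.inl (Finset.mem_erase.2 ⟨he, h⟩))
    · left
      exact EqvGen.rel _ _ (Or.inr h)
  | refl x => exact Or.inl (EqvGen.refl _)
  | symm x y _ ih =>
    rcases ih with h | ⟨h1, h2⟩ | ⟨h1, h2⟩
    · exact Or.inl h.symm
    · exact Or.inr (Or.inr ⟨h2.symm, h1.symm⟩)
    · exact Or.inr (Or.inl ⟨h2.symm, h1.symm⟩)
  | trans x y z _ _ ih1 ih2 =>
    rcases ih1 with h | ⟨h1, h2⟩ | ⟨h1, h2⟩ <;> rcases ih2 with g | ⟨g1, g2⟩ | ⟨g1, g2⟩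
    · exact Or.inl (h.trans _ _ _ g)
    · exact Or.inr (Or.inl ⟨h.trans _ _ _ g1, g2⟩)
    · exact Or.inr (Or.inr ⟨h.trans _ _ _ g1, g2⟩)
    · exact Or.inr (Or.inl ⟨h1, h2.trans _ _ _ g⟩)
    · exact Or.inr (Or.inl ⟨h1, g2⟩)
    · exact Or.inl (h1.trans _ _ _ g2)
    · exact Or.inr (Or.inr ⟨h1, h2.trans _ _ _ g⟩)
    · exact Or.inl (h1.trans _ _ _ g2)
    · exact Or.inr (Or.inr ⟨h1, g2⟩)

end Pool.Agent.Helper83.GPM
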