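import Pool.Agent.Helper52.GPM.S

/-!
# Gilbert-Pollak, chapter MSTF: exchange facts for one vertex
-/

namespace Pool.Agent.Helper83.GPM

open Relation Classical Pool.Agent.Helper18.GP Pool.Agent.Helper52.GPM

theorem eqv_mono {α : Type*} {r s : α → α → Prop} (h : ∀ x y, r x y → s x y) {a b : α}
    (hab : EqvGen r a b) : EqvGen s a b := by
  induction hab with
  | rel x y hxy => exact EqvGen.rel _ _ (h _ _ hxy)
  | refl x => exact EqvGen.refl _
  | symm x y _ ih => exact ih.symm
  | trans x y z _ _ ih1 ih2 => exact ih1.trans _ _ _ ih2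

theorem mod_xVtx (hC : xLoop ∧ xEx ∧ xSplit ∧ xBridge ∧ xExch) :
    xVert ∧ xFree ∧ xClear ∧ xNoX := by
  obtain ⟨_, _, hS, hB, hE⟩ := hC
  have hV : xVert := by
    intro N V w F hw m hm a b hab c hc
    have hmem := hm.1.1 _ hab
    have ha : a ∈ V := hmem.1
    have hb : b ∈ V := hmem.2
    rcases hS N V F m hm.1 a b hab c hc with h | h
    · right
      exact hE N V w F hw m hm a b hab c hc b hb h (EqvGen.refl _)
    · left
      exact hE N V w F hw m hm a b hab a ha c hc (EqvGen.refl _) h
  refine ⟨hV, ?_, ?_, ?_⟩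
  · intro N V w F hw m hm a b hab h
    refine hB N V w F hw m hm a b hab ?_
    exact eqv_mono (fun x y hxy => Or.inr hxy) h
  · intro N V w F hw m hm a b hab u hu hua hub
    have hmem := hm.1.1 _ hab
    have ha : a ∈ V := hmem.1
    have hb : b ∈ V := hmem.2
    have h1 := hw.po a ha u hu (Ne.symm hua)
    have h2 := hw.po u hu b hb hub
    rcases hV N V w F hw m hm a b hab u hu with h | h
    · linarith
    · linarith
  · intro N V w F hw m m' hm hm' a b c d hab hcd α β γ δ hα hβ hγ hδ e1 e2 h1 h2 h3 h4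
    have hmem := hm.1.1 _ hab
    have ha : a ∈ V := hmem.1
    have hb : b ∈ V := hmem.2
    have hmem' := hm'.1.1 _ hcd
    have hc : c ∈ V := hmem'.1
    have hd : d ∈ V := hmem'.2
    have s1 := hw.sy c hc b hb
    have s2 := hw.sy c hc a ha
    have s3 := hw.sy d hd b hb
    have s4 := hw.sy d hd a ha
    have v1 := hV N V w F hw m hm a b hab c hc
    have v2 := hV N V w F hw m hm a b hab d hd
    have v3 := hV N V w F hw m' hm' c d hcd a ha
    have v4 := hV N V w F hw m' hm' c d hcd b hb
    rcases v1 with v1 | v1 <;> rcases v2 with v2 | v2 <;> rcases v3 with v3 | v3 <;>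
      rcases v4 with v4 | v4 <;> linarith

end Pool.Agent.Helper83.GPM
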